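import Mathlib

namespace Pool.Agent.Results.MP_1fec7a_co.DisproofQ1

open SimpleGraph

/-- A rotation system of a simple graph: a permutation of the darts (oriented edges) that keeps the
initial vertex and permutes the darts leaving any given vertex in a single cycle. -/
structure Rotation {W : Type} (G : SimpleGraph W) where
  next : Equiv.Perm G.Dart
  fst_next : ∀ d : G.Dart, (next d).fst = d.fst
  cyclic : ∀ d e : G.Dart, d.fst = e.fst → next.SameCycle d e

/-- Reversal of darts. -/
def reversal {W : Type} (G : SimpleGraph W) : Equiv.Perm G.Dart :=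
  Function.Involutive.toPerm Dart.symm Dart.symm_involutive

/-- The face permutation: run along the dart `d`, then leave its end vertex by the dart that
follows the reverse of `d` in the rotation. Its orbits are the facial walks. -/
def Rotation.face {W : Type} {G : SimpleGraph W} (R : Rotation G) : Equiv.Perm G.Dart :=
  (reversal G).trans R.next

/-- The number of faces: the orbits of the face permutation, and one face for every isolated
vertex. -/
noncomputable def Rotation.faces {W : Type} {G : SimpleGraph W} (R : Rotation G) : ℕ :=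
  Nat.card (Quotient (Equiv.Perm.SameCycle.setoid R.face)) +
    Nat.card {v : W // ∀ w, ¬ G.Adj v w}

/-- `G` embeds in the orientable surface of genus `g`: some rotation system has Euler
characteristic `V - E + F` at least `2 c - 2 g`, with `c` the number of components of `G`. -/
def EmbedsInGenus {W : Type} (G : SimpleGraph W) (g : ℕ) : Prop :=
  ∃ R : Rotation G,
    2 * Nat.card G.ConnectedComponent + Nat.card G.edgeSet ≤ Nat.card W + R.faces + 2 * g

/-- The orientable genus of `G` is `g`. -/
def HasGenus {W : Type} (G : SimpleGraph W) (g : ℕ) : Prop :=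
  IsLeast {h : ℕ | EmbedsInGenus G h} g

/-- The incidence graph of the hypergraph with edges `E i`, `i : ι`. -/
def incidence {V ι : Type} (E : ι → Finset V) : SimpleGraph (V ⊕ ι) where
  Adj a b := (∃ v i, v ∈ E i ∧ a = Sum.inl v ∧ b = Sum.inr i) ∨
    (∃ v i, v ∈ E i ∧ a = Sum.inr i ∧ b = Sum.inl v)
  symm := ⟨fun a b h => by
    rcases h with ⟨v, i, h, ha, hb⟩ | ⟨v, i, h, ha, hb⟩
    · exact Or.inr ⟨v, i, h, hb, ha⟩
    · exact Or.inl ⟨v, i, h, hb, ha⟩⟩
  loopless := ⟨fun a h => by
    rcases h with ⟨v, i, h, ha, hb⟩ | ⟨v, i, h, ha, hb⟩ <;> simp_all⟩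

/-- The multiplicity of `uv` in the adjacency multigraph: the number of hyperedges containing both
`u` and `v`. -/
noncomputable def mult {V ι : Type} (E : ι → Finset V) (u v : V) : ℕ :=
  Nat.card {i : ι // u ∈ E i ∧ v ∈ E i}

/-- The adjacency multigraph of the hypergraph `E` is the simple graph `G`. -/
def AdjacencyIs {V ι : Type} (E : ι → Finset V) (G : SimpleGraph V) : Prop :=
  ∀ u v : V, u ≠ v → (G.Adj u v → mult E u v = 1) ∧ (¬ G.Adj u v → mult E u v = 0)

/-- The reduced genus of `G` is `g`: the least genus of a finite hypergraph whose adjacency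
multigraph is `G`. -/
def HasReducedGenus {V : Type} (G : SimpleGraph V) (g : ℕ) : Prop :=
  IsLeast {h : ℕ | ∃ (ι : Type) (_ : Finite ι) (E : ι → Finset V),
    AdjacencyIs E G ∧ HasGenus (incidence E) h} g

/-- Heawood's function. -/
noncomputable def heawood (g : ℕ) : ℝ := (7 + √(1 + 48 * (g : ℝ))) / 2

/-! ### Existence of rotation systems -/

theorem exists_cyclic (α : Type) [Finite α] :
    ∃ c : Equiv.Perm α, ∀ x y, ∃ k : ℕ, (c ^ k) x = y := by
  classical
  rcases isEmpty_or_nonempty α with h | h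
  · exact ⟨1, fun x => (h.false x).elim⟩
  · obtain ⟨n, ⟨e⟩⟩ := Finite.exists_equiv_fin α
    have hn : n ≠ 0 := by
      rintro rfl
      exact (e h.some).elim0
    obtain ⟨m, rfl⟩ := Nat.exists_eq_succ_of_ne_zero hn
    let f : α ≃ ZMod (m + 1) := e
    let c : Equiv.Perm α := (f.trans (Equiv.addRight (1 : ZMod (m + 1)))).trans f.symm
    have key : ∀ (k : ℕ) (x : α), f ((c ^ k) x) = f x + k := by
      intro k
      induction k with
      | zero => intro x; simp
      | succ k ih =>
        intro x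
        rw [pow_succ', Equiv.Perm.mul_apply]
        have : f (c ((c ^ k) x)) = f ((c ^ k) x) + 1 := by simp [c]
        rw [this, ih]
        push_cast
        ring
    refine ⟨c, fun x y => ⟨(f y - f x).val, ?_⟩⟩
    apply f.injective
    rw [key, ZMod.natCast_zmod_val]
    ring

theorem exists_rotation {W : Type} [Finite W] (G : SimpleGraph W) : Nonempty (Rotation G) := by
  classical
  have hfin : Finite G.Dart := Finite.of_injective _ Dart.toProd_injective
  have hc : ∀ v : W, ∃ c : Equiv.Perm {d : G.Dart // d.fst = v}, ∀ x y, ∃ k : ℕ, (c ^ k) x = y :=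
    fun v => exists_cyclic _
  choose c hc using hc
  let nx : G.Dart → G.Dart := fun d => (c d.fst ⟨d, rfl⟩).1
  let pv : G.Dart → G.Dart := fun d => ((c d.fst).symm ⟨d, rfl⟩).1
  have hnx : ∀ (v : W) (x : {d : G.Dart // d.fst = v}), nx x.1 = (c v x).1 := by
    rintro v ⟨d, rfl⟩
    rfl
  have hpv : ∀ (v : W) (x : {d : G.Dart // d.fst = v}), pv x.1 = ((c v).symm x).1 := by
    rintro v ⟨d, rfl⟩
    rfl
  let next : Equiv.Perm G.Dart :=
    { toFun := nx
      invFun := pv
      left_inv := by
        intro d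
        have := hpv d.fst (c d.fst ⟨d, rfl⟩)
        simp only [Equiv.symm_apply_apply] at this
        exact this
      right_inv := by
        intro d
        have := hnx d.fst ((c d.fst).symm ⟨d, rfl⟩)
        simp only [Equiv.apply_symm_apply] at this
        exact this }
  have hpow : ∀ (k : ℕ) (v : W) (x : {d : G.Dart // d.fst = v}),
      (next ^ k) x.1 = ((c v ^ k) x).1 := by
    intro k
    induction k with
    | zero => intro v x; simp
    | succ k ih =>
      intro v x
      rw [pow_succ, pow_succ, Equiv.Perm.mul_apply, Equiv.Perm.mul_apply]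
      have : next x.1 = (c v x).1 := hnx v x
      rw [this, ih]
  refine ⟨⟨next, ?_, ?_⟩⟩
  · intro d
    exact (c d.fst ⟨d, rfl⟩).2
  · intro d e h
    obtain ⟨k, hk⟩ := hc e.fst ⟨d, h⟩ ⟨e, rfl⟩
    refine ⟨k, ?_⟩
    rw [zpow_natCast]
    have := hpow k e.fst ⟨d, h⟩
    rw [this, hk]

theorem embeds_of_connected {W : Type} [Finite W] (G : SimpleGraph W) (hG : G.Connected)
    (a b : W) (hab : G.Adj a b) (g : ℕ)
    (h : 2 + Nat.card G.edgeSet ≤ Nat.card W + 1 + 2 * g) : EmbedsInGenus G g := by
  obtain ⟨R⟩ := exists_rotation G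
  refine ⟨R, ?_⟩
  have hfin : Finite G.Dart := Finite.of_injective _ Dart.toProd_injective
  have h1 : Nat.card G.ConnectedComponent = 1 := by
    have := hG.preconnected.subsingleton_connectedComponent
    have : Nonempty G.ConnectedComponent := ⟨G.connectedComponentMk a⟩
    exact Nat.card_eq_one_iff_unique.mpr ⟨inferInstance, inferInstance⟩
  have h2 : 1 ≤ R.faces := by
    unfold Rotation.faces
    have : Nonempty (Quotient (Equiv.Perm.SameCycle.setoid R.face)) :=
      ⟨Quotient.mk _ ⟨(a, b), hab⟩⟩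
    have : 0 < Nat.card (Quotient (Equiv.Perm.SameCycle.setoid R.face)) := Nat.card_pos
    omega
  rw [h1]
  omega

/-! ### The graph: `K_60` joined with two disjoint joined 5-cycles -/

/-- The join of two 5-cycles, on ten vertices. -/
def X (a b : Fin 10) : Prop :=
  a.val / 5 ≠ b.val / 5 ∨ (a.val % 5 + 1) % 5 = b.val % 5 ∨ (b.val % 5 + 1) % 5 = a.val % 5

instance : DecidableRel X := fun a b => by unfold X; infer_instance

theorem X_symm : ∀ a b, X a b → X b a := by decide

theorem X_irrefl : ∀ a, ¬ X a a := by decide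

/-- The join of `K_60` with two 5-cycles that are joined to each other. -/
def G₀ : SimpleGraph (Fin 60 ⊕ Fin 10) where
  Adj u v := match u, v with
    | Sum.inl i, Sum.inl j => i ≠ j
    | Sum.inl _, Sum.inr _ => True
    | Sum.inr _, Sum.inl _ => True
    | Sum.inr a, Sum.inr b => X a b
  symm := ⟨fun u v => by
    rcases u with i | a <;> rcases v with j | b <;> simp
    · exact fun h => Ne.symm h
    · exact X_symm a b⟩
  loopless := ⟨fun u => by
    rcases u with i | a <;> simp
    exact X_irrefl a⟩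

/-- Index type of the hyperedges. -/
abbrev Idx : Type := Unit ⊕ (Fin 60 × Fin 10) ⊕ {p : Fin 10 × Fin 10 // p.1 < p.2 ∧ X p.1 p.2}

/-- One hyperedge is the vertex set of `K_60`; every other edge of the graph is a hyperedge with two
elements. -/
def E₀ : Idx → Finset (Fin 60 ⊕ Fin 10)
  | Sum.inl _ => Finset.univ.image Sum.inl
  | Sum.inr (Sum.inl (i, a)) => {Sum.inl i, Sum.inr a}
  | Sum.inr (Sum.inr q) => {Sum.inr q.1.1, Sum.inr q.1.2}

theorem card_idx : Nat.card Idx = 636 := by
  rw [Nat.card_eq_fintype_card]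
  decide +kernel

theorem mult_one {V ι : Type} {E : ι → Finset V} {u v : V} (i₀ : ι) (hu : u ∈ E i₀)
    (hv : v ∈ E i₀) (h : ∀ i, u ∈ E i → v ∈ E i → i = i₀) : mult E u v = 1 := by
  unfold mult
  rw [Nat.card_eq_one_iff_unique]
  exact ⟨⟨fun x y => Subtype.ext ((h x.1 x.2.1 x.2.2).trans (h y.1 y.2.1 y.2.2).symm)⟩,
    ⟨⟨i₀, hu, hv⟩⟩⟩

theorem mult_zero {V ι : Type} {E : ι → Finset V} {u v : V}
    (h : ∀ i, u ∈ E i → v ∈ E i → False) : mult E u v = 0 := by
  unfold mult
  rw [Nat.card_eq_zero]
  left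
  exact ⟨fun x => h x.1 x.2.1 x.2.2⟩

theorem mem_pair (q : {p : Fin 10 × Fin 10 // p.1 < p.2 ∧ X p.1 p.2}) (a b : Fin 10)
    (hab : a ≠ b) (h1 : (Sum.inr a : Fin 60 ⊕ Fin 10) ∈ E₀ (Sum.inr (Sum.inr q)))
    (h2 : (Sum.inr b : Fin 60 ⊕ Fin 10) ∈ E₀ (Sum.inr (Sum.inr q))) :
    q.1 = (min a b, max a b) ∧ X a b := by
  obtain ⟨⟨p, r⟩, hlt, hp⟩ := q
  simp only [E₀, Finset.mem_insert, Finset.mem_singleton, Sum.inr.injEq] at h1 h2
  simp only at hlt hp
  have : (a = p ∧ b = r) ∨ (a = r ∧ b = p) := by
    rcases h1 with h1 | h1 <;> rcases h2 with h2 | h2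
    · exact absurd (h1.trans h2.symm) hab
    · exact Or.inl ⟨h1, h2⟩
    · exact Or.inr ⟨h1, h2⟩
    · exact absurd (h1.trans h2.symm) hab
  rcases this with ⟨rfl, rfl⟩ | ⟨rfl, rfl⟩
  · exact ⟨by simp [min_eq_left hlt.le, max_eq_right hlt.le], hp⟩
  · exact ⟨by simp [min_eq_right hlt.le, max_eq_left hlt.le], X_symm _ _ hp⟩

theorem adjacencyIs : AdjacencyIs E₀ G₀ := by
  intro u v huv
  constructor
  · intro h
    rcases u with i | a <;> rcases v with j | b
    · refine mult_one (Sum.inl ()) (by simp [E₀]) (by simp [E₀]) ?_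
      rintro (x | ⟨i', a'⟩ | q) h1 h2 <;> simp_all [E₀]
    · refine mult_one (Sum.inr (Sum.inl (i, b))) (by simp [E₀]) (by simp [E₀]) ?_
      rintro (x | ⟨i', a'⟩ | q) h1 h2 <;> simp_all [E₀]
    · refine mult_one (Sum.inr (Sum.inl (j, a))) (by simp [E₀]) (by simp [E₀]) ?_
      rintro (x | ⟨i', a'⟩ | q) h1 h2 <;> simp_all [E₀]
    · have hX : X a b := h
      have hab : a ≠ b := fun h => huv (by rw [h])
      have hlt : min a b < max a b := min_lt_max.mpr hab
      have hX' : X (min a b) (max a b) := by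
        rcases le_total a b with hle | hle
        · rw [min_eq_left hle, max_eq_right hle]; exact hX
        · rw [min_eq_right hle, max_eq_left hle]; exact X_symm _ _ hX
      refine mult_one (Sum.inr (Sum.inr ⟨(min a b, max a b), hlt, hX'⟩)) ?_ ?_ ?_
      · rcases le_total a b with hle | hle <;> simp [E₀, hle]
      · rcases le_total a b with hle | hle <;> simp [E₀, hle]
      · rintro (x | ⟨i', a'⟩ | q) h1 h2
        · simp [E₀] at h1
        · simp only [E₀, Finset.mem_insert, Finset.mem_singleton, reduceCtorEq, false_or,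
            Sum.inr.injEq] at h1 h2
          exact absurd (h1.trans h2.symm) hab
        · have := (mem_pair q a b hab h1 h2).1
          congr 2
          exact Subtype.ext this
  · intro h
    rcases u with i | a <;> rcases v with j | b
    · exact absurd (fun h' => huv (by rw [h'])) h
    · exact absurd trivial h
    · exact absurd trivial h
    · have hX : ¬ X a b := h
      have hab : a ≠ b := fun h => huv (by rw [h])
      apply mult_zero
      rintro (x | ⟨i', a'⟩ | q) h1 h2
      · simp [E₀] at h1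
      · simp only [E₀, Finset.mem_insert, Finset.mem_singleton, reduceCtorEq, false_or,
            Sum.inr.injEq] at h1 h2
        exact hab (h1.trans h2.symm)
      · exact hX (mem_pair q a b hab h1 h2).2

/-! ### Counting edges of the incidence graph and connectedness -/

theorem card_incidence {V ι : Type} [Finite V] [Finite ι] (E : ι → Finset V) :
    Nat.card (incidence E).edgeSet ≤ Nat.card (Σ i : ι, {v : V // v ∈ E i}) := by
  classical
  let f : (Σ i : ι, {v : V // v ∈ E i}) → (incidence E).edgeSet := fun x =>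
    ⟨s(Sum.inl x.2.1, Sum.inr x.1), by
      rw [mem_edgeSet]
      exact Or.inl ⟨x.2.1, x.1, x.2.2, rfl, rfl⟩⟩
  apply Nat.card_le_card_of_surjective f
  rintro ⟨e, he⟩
  induction e using Sym2.ind with
  | _ a b =>
    rw [mem_edgeSet] at he
    rcases he with ⟨v, i, h, rfl, rfl⟩ | ⟨v, i, h, rfl, rfl⟩
    · exact ⟨⟨i, v, h⟩, rfl⟩
    · exact ⟨⟨i, v, h⟩, Subtype.ext Sym2.eq_swap⟩

theorem card_E₀ : Nat.card (Σ i : Idx, {v : Fin 60 ⊕ Fin 10 // v ∈ E₀ i}) = 1330 := by
  rw [Nat.card_sigma]
  simp only [Nat.card_eq_fintype_card, Fintype.card_coe]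
  rw [Fintype.sum_sum_type, Fintype.sum_sum_type]
  have h1 : ∀ x : Unit, (E₀ (Sum.inl x)).card = 60 := by
    intro x
    simp only [E₀]
    rw [Finset.card_image_of_injective _ Sum.inl_injective]
    simp
  have h2 : ∀ x : Fin 60 × Fin 10, (E₀ (Sum.inr (Sum.inl x))).card = 2 := by
    rintro ⟨i, a⟩
    simp only [E₀]
    rw [Finset.card_pair (by simp)]
  have h3 : ∀ x : {p : Fin 10 × Fin 10 // p.1 < p.2 ∧ X p.1 p.2},
      (E₀ (Sum.inr (Sum.inr x))).card = 2 := by
    rintro ⟨⟨a, b⟩, hlt, h⟩
    simp only [E₀]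
    rw [Finset.card_pair]
    simp only [ne_eq, Sum.inr.injEq]
    exact hlt.ne
  simp only [h1, h2, h3, Finset.sum_const, Finset.card_univ, smul_eq_mul]
  have : Fintype.card {p : Fin 10 × Fin 10 // p.1 < p.2 ∧ X p.1 p.2} = 35 := by decide +kernel
  rw [this]
  simp

theorem adj_inc {V ι : Type} {E : ι → Finset V} {v : V} {i : ι} (h : v ∈ E i) :
    (incidence E).Adj (Sum.inl v) (Sum.inr i) := Or.inl ⟨v, i, h, rfl, rfl⟩

theorem connected₀ : (incidence E₀).Connected := by
  have hbig : ∀ i : Fin 60, (incidence E₀).Reachable (Sum.inl (Sum.inl i)) (Sum.inr (Sum.inl ())) :=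
    fun i => (adj_inc (by simp [E₀])).reachable
  have hmid : ∀ (i : Fin 60) (a : Fin 10), (incidence E₀).Reachable
      (Sum.inr (Sum.inr (Sum.inl (i, a)))) (Sum.inr (Sum.inl ())) := fun i a =>
    (adj_inc (v := Sum.inl i) (i := Sum.inr (Sum.inl (i, a)))
      (by simp [E₀])).symm.reachable.trans (hbig i)
  have hout : ∀ a : Fin 10, (incidence E₀).Reachable
      (Sum.inl (Sum.inr a)) (Sum.inr (Sum.inl ())) := fun a =>
    (adj_inc (v := Sum.inr a) (i := Sum.inr (Sum.inl (0, a)))
      (by simp [E₀])).reachable.trans (hmid 0 a)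
  have hall : ∀ x, (incidence E₀).Reachable x (Sum.inr (Sum.inl ())) := by
    rintro ((i | a) | (x | ⟨i, a⟩ | q))
    · exact hbig i
    · exact hout a
    · exact Reachable.refl _
    · exact hmid i a
    · exact (adj_inc (v := Sum.inr q.1.1) (i := Sum.inr (Sum.inr q))
        (by simp [E₀])).symm.reachable.trans (hout q.1.1)
  exact { preconnected := fun x y => (hall x).trans (hall y).symm
          nonempty := ⟨Sum.inr (Sum.inl ())⟩ }

theorem embeds₀ : EmbedsInGenus (incidence E₀) 313 := by
  refine embeds_of_connected _ connected₀ (Sum.inl (Sum.inl 0)) (Sum.inr (Sum.inl ()))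
    (adj_inc (by simp [E₀])) _ ?_
  have h1 := card_incidence E₀
  rw [card_E₀] at h1
  have h2 : Nat.card ((Fin 60 ⊕ Fin 10) ⊕ Idx) = 706 := by
    rw [Nat.card_sum, card_idx]
    simp
  omega

theorem exists_reducedGenus : ∃ g, g ≤ 313 ∧ HasReducedGenus G₀ g := by
  classical
  have h1 : ∃ h, EmbedsInGenus (incidence E₀) h := ⟨313, embeds₀⟩
  have h2 : HasGenus (incidence E₀) (Nat.find h1) :=
    ⟨Nat.find_spec h1, fun b hb => Nat.find_min' h1 hb⟩
  have h3 : ∃ h, ∃ (ι : Type) (_ : Finite ι) (E : ι → Finset (Fin 60 ⊕ Fin 10)),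
      AdjacencyIs E G₀ ∧ HasGenus (incidence E) h :=
    ⟨Nat.find h1, Idx, inferInstance, E₀, adjacencyIs, h2⟩
  refine ⟨Nat.find h3, ?_, Nat.find_spec h3, fun b hb => Nat.find_min' h3 hb⟩
  exact (Nat.find_min' h3 ⟨Idx, inferInstance, E₀, adjacencyIs, h2⟩).trans
    (Nat.find_min' h1 embeds₀)

/-! ### Clique number and chromatic number -/

theorem cliqueX : ∀ s : Finset (Fin 10), (∀ a ∈ s, ∀ b ∈ s, a ≠ b → X a b) → s.card ≤ 4 := by
  decide +kernel

theorem cliqueNum_le : G₀.cliqueNum ≤ 64 := by
  classical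
  obtain ⟨s, hs⟩ := G₀.exists_isNClique_cliqueNum
  rw [← hs.card_eq]
  have h1 : s.toLeft.card ≤ 60 := by
    simpa using Finset.card_le_univ s.toLeft
  have h2 : s.toRight.card ≤ 4 := by
    apply cliqueX
    intro a ha b hb hab
    have := hs.isClique (Finset.mem_toRight.mp ha) (Finset.mem_toRight.mp hb)
      (by simpa using hab)
    exact this
  have h3 : s.toLeft.card + s.toRight.card = s.card := Finset.card_toLeft_add_card_toRight
  omega

theorem three_colours {α : Type} [DecidableEq α] (c : Fin 5 → α)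
    (h : ∀ a : Fin 5, c a ≠ c (a + 1)) : 3 ≤ (Finset.univ.image c).card := by
  by_contra hlt
  push Not at hlt
  have h0 := h 0
  have h1 := h 1
  have h2 := h 2
  have h3 := h 3
  have h4 := h 4
  simp only [zero_add] at h0
  have e1 : (1 : Fin 5) + 1 = 2 := rfl
  have e2 : (2 : Fin 5) + 1 = 3 := rfl
  have e3 : (3 : Fin 5) + 1 = 4 := rfl
  have e4 : (4 : Fin 5) + 1 = 0 := rfl
  rw [e1] at h1
  rw [e2] at h2
  rw [e3] at h3
  rw [e4] at h4
  have key : ∀ x y z : Fin 5, c x ≠ c y → c y ≠ c z → c x = c z := by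
    intro x y z hxy hyz
    by_contra hxz
    have : 2 < (Finset.univ.image c).card := by
      rw [Finset.two_lt_card]
      exact ⟨c x, by simp, c y, by simp, c z, by simp, hxy, hxz, hyz⟩
    omega
  have k1 := key 0 1 2 h0 h1
  have k2 := key 1 2 3 h1 h2
  have k3 := key 2 3 4 h2 h3
  apply h4
  rw [← k3, ← k1]

theorem not_colorable : ¬ G₀.Colorable 65 := by
  classical
  rintro ⟨c⟩
  have hc : ∀ u v, G₀.Adj u v → c u ≠ c v := fun u v h => c.valid h
  let A : Finset (Fin 65) := Finset.univ.image (fun i : Fin 60 => c (Sum.inl i))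
  let f : Fin 5 → Fin 10 := fun a => ⟨a.val, by omega⟩
  let f' : Fin 5 → Fin 10 := fun a => ⟨a.val + 5, by omega⟩
  let B : Finset (Fin 65) := Finset.univ.image (fun a : Fin 5 => c (Sum.inr (f a)))
  let C : Finset (Fin 65) := Finset.univ.image (fun a : Fin 5 => c (Sum.inr (f' a)))
  have hA : A.card = 60 := by
    rw [Finset.card_image_of_injective]
    · simp
    · intro i j hij
      by_contra hne
      exact hc (Sum.inl i) (Sum.inl j) hne hij
  have hf : ∀ a : Fin 5, X (f a) (f (a + 1)) := by decide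
  have hf' : ∀ a : Fin 5, X (f' a) (f' (a + 1)) := by decide
  have hff' : ∀ a b : Fin 5, X (f a) (f' b) := by decide
  have hB : 3 ≤ B.card := three_colours _ fun a => hc _ _ (hf a)
  have hC : 3 ≤ C.card := three_colours _ fun a => hc _ _ (hf' a)
  have hAB : Disjoint A B := by
    rw [Finset.disjoint_left]
    intro x hx hy
    simp only [A, B, Finset.mem_image, Finset.mem_univ, true_and] at hx hy
    obtain ⟨i, rfl⟩ := hx
    obtain ⟨a, ha⟩ := hy
    exact hc (Sum.inr (f a)) (Sum.inl i) trivial ha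
  have hABC : Disjoint (A ∪ B) C := by
    rw [Finset.disjoint_left]
    intro x hx hy
    simp only [A, B, C, Finset.mem_union, Finset.mem_image, Finset.mem_univ, true_and] at hx hy
    obtain ⟨b, hb⟩ := hy
    rcases hx with ⟨i, hi⟩ | ⟨a, ha⟩
    · exact hc (Sum.inr (f' b)) (Sum.inl i) trivial (hb.trans hi.symm)
    · exact hc (Sum.inr (f a)) (Sum.inr (f' b)) (hff' a b) (ha.trans hb.symm)
  have h1 : (A ∪ B ∪ C).card = A.card + B.card + C.card := by
    rw [Finset.card_union_of_disjoint hABC, Finset.card_union_of_disjoint hAB]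
  have h2 : (A ∪ B ∪ C).card ≤ 65 := by
    simpa using Finset.card_le_univ (A ∪ B ∪ C)
  omega

theorem chromatic_ge : 66 ≤ ENat.toNat G₀.chromaticNumber := by
  by_contra h
  push Not at h
  have h1 := G₀.colorable_chromaticNumber_of_fintype
  exact not_colorable (h1.mono (by omega))

/-- It is not true that every simple graph `G` of reduced genus `g` satisfies
`χ(G) ≤ max (H(g)) (ω(G) + 1)`. -/
theorem result : ¬ ∀ (g : ℕ) (V : Type) (_ : Finite V) (G : SimpleGraph V), HasReducedGenus G g →
    (ENat.toNat G.chromaticNumber : ℝ) ≤ max (heawood g) ((G.cliqueNum : ℝ) + 1) := by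
  intro h
  obtain ⟨g, hg, hred⟩ := exists_reducedGenus
  have h1 := h g _ inferInstance G₀ hred
  have h2 : (66 : ℝ) ≤ (ENat.toNat G₀.chromaticNumber : ℝ) := by
    exact_mod_cast chromatic_ge
  have h3 : ((G₀.cliqueNum : ℝ) + 1) ≤ 65 := by
    have : (G₀.cliqueNum : ℝ) ≤ 64 := by exact_mod_cast cliqueNum_le
    linarith
  have h4 : heawood g < 66 := by
    unfold heawood
    have hg' : (g : ℝ) ≤ 313 := by exact_mod_cast hg
    have : √(1 + 48 * (g : ℝ)) < 125 := by
      rw [Real.sqrt_lt' (by norm_num)]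
      nlinarith
    linarith
  rcases le_max_iff.mp h1 with h5 | h5 <;> linarith

end Pool.Agent.Results.MP_1fec7a_co.DisproofQ1
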