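import Mathlib

namespace Pool.Agent.Results.MP_1fec7a_co.DisproofQ2

open SimpleGraph

/-- A rotation system of a simple graph: a permutation of the darts (oriented edges) that keeps the
initial vertex and permutes the darts leaving any given vertex in a single cycle. -/
structure Rotation {W : Type} (G : SimpleGraph W) where
  next : Equiv.Perm G.Dart
  fst_next : ∀ d : G.Dart, (next d).fst = d.fst
  cyclic : ∀ d e : G.Dart, d.fst = e.fst → next.SameCycle d e

/-- Reversal of darts. -/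
def reversal {W : Type} (G : SimpleGraph W) : Equiv.Perm G.Dart :=
  Function.Involutive.toPerm Dart.symm Dart.symm_involutive

/-- The face permutation: run along the dart `d`, then leave its end vertex by the dart that
follows the reverse of `d` in the rotation. Its orbits are the facial walks. -/
def Rotation.face {W : Type} {G : SimpleGraph W} (R : Rotation G) : Equiv.Perm G.Dart :=
  (reversal G).trans R.next

/-- The number of faces: the orbits of the face permutation, and one face for every isolated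
vertex. -/
noncomputable def Rotation.faces {W : Type} {G : SimpleGraph W} (R : Rotation G) : ℕ :=
  Nat.card (Quotient (Equiv.Perm.SameCycle.setoid R.face)) +
    Nat.card {v : W // ∀ w, ¬ G.Adj v w}

/-- `G` embeds in the orientable surface of genus `g`: some rotation system has Euler
characteristic `V - E + F` at least `2 c - 2 g`, with `c` the number of components of `G`. -/
def EmbedsInGenus {W : Type} (G : SimpleGraph W) (g : ℕ) : Prop :=
  ∃ R : Rotation G,
    2 * Nat.card G.ConnectedComponent + Nat.card G.edgeSet ≤ Nat.card W + R.faces + 2 * g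

/-- The orientable genus of `G` is `g`. -/
def HasGenus {W : Type} (G : SimpleGraph W) (g : ℕ) : Prop :=
  IsLeast {h : ℕ | EmbedsInGenus G h} g

/-- The incidence graph of the hypergraph with edges `E i`, `i : ι`. -/
def incidence {V ι : Type} (E : ι → Finset V) : SimpleGraph (V ⊕ ι) where
  Adj a b := (∃ v i, v ∈ E i ∧ a = Sum.inl v ∧ b = Sum.inr i) ∨
    (∃ v i, v ∈ E i ∧ a = Sum.inr i ∧ b = Sum.inl v)
  symm := ⟨fun a b h => by
    rcases h with ⟨v, i, h, ha, hb⟩ | ⟨v, i, h, ha, hb⟩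
    · exact Or.inr ⟨v, i, h, hb, ha⟩
    · exact Or.inl ⟨v, i, h, hb, ha⟩⟩
  loopless := ⟨fun a h => by
    rcases h with ⟨v, i, h, ha, hb⟩ | ⟨v, i, h, ha, hb⟩ <;> simp_all⟩

/-- The multiplicity of `uv` in the adjacency multigraph: the number of hyperedges containing both
`u` and `v`. -/
noncomputable def mult {V ι : Type} (E : ι → Finset V) (u v : V) : ℕ :=
  Nat.card {i : ι // u ∈ E i ∧ v ∈ E i}

/-- The adjacency multigraph of the hypergraph `E` is the simple graph `G`. -/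
def AdjacencyIs {V ι : Type} (E : ι → Finset V) (G : SimpleGraph V) : Prop :=
  ∀ u v : V, u ≠ v → (G.Adj u v → mult E u v = 1) ∧ (¬ G.Adj u v → mult E u v = 0)

/-- The reduced genus of `G` is `g`: the least genus of a finite hypergraph whose adjacency
multigraph is `G`. -/
def HasReducedGenus {V : Type} (G : SimpleGraph V) (g : ℕ) : Prop :=
  IsLeast {h : ℕ | ∃ (ι : Type) (_ : Finite ι) (E : ι → Finset V),
    AdjacencyIs E G ∧ HasGenus (incidence E) h} g

/-- Heawood's function. -/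
noncomputable def heawood (g : ℕ) : ℝ := (7 + √(1 + 48 * (g : ℝ))) / 2

/-- Any two distinct maximal cliques of `G` have at most one common vertex. -/
def CliquePartitioned {V : Type} (G : SimpleGraph V) : Prop :=
  ∀ s t : Set V, Maximal G.IsClique s → Maximal G.IsClique t → s ≠ t → (s ∩ t).Subsingleton

/-! ### Rotation systems from tables -/

theorem sameCycle_inv {D : Type} {k : ℕ} (f : Equiv.Perm D) (g : D → Fin k)
    (h : ∀ x, g (f x) = g x) (x y : D) (hxy : f.SameCycle x y) : g x = g y := by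
  obtain ⟨i, rfl⟩ := hxy
  have hnat : ∀ (n : ℕ) (z : D), g ((f ^ n) z) = g z := by
    intro n
    induction n with
    | zero => intro z; simp
    | succ n ih =>
      intro z
      rw [pow_succ, Equiv.Perm.mul_apply, ih, h]
  obtain ⟨n, rfl | rfl⟩ := i.eq_nat_or_neg
  · rw [zpow_natCast, hnat]
  · have := hnat n ((f ^ (-(n : ℤ))) x)
    rw [← this, ← Equiv.Perm.mul_apply, zpow_neg, zpow_natCast, mul_inv_cancel]
    simp

/-- A rotation system given by successor and predecessor tables, all degrees being at most 3. -/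
theorem embeds_of_tables {W : Type} [Finite W] (G : SimpleGraph W) (hG : G.Connected)
    (succ pred : W → W → W) (k : ℕ) (lab : W → W → Fin k)
    (h1 : ∀ a b, G.Adj a b → G.Adj a (succ a b))
    (h2 : ∀ a b, G.Adj a b → G.Adj a (pred a b))
    (h3 : ∀ a b, G.Adj a b → pred a (succ a b) = b)
    (h4 : ∀ a b, G.Adj a b → succ a (pred a b) = b)
    (h5 : ∀ a b c, G.Adj a b → G.Adj a c → c = b ∨ c = succ a b ∨ c = succ a (succ a b))
    (h6 : ∀ a b, G.Adj a b → lab b (succ b a) = lab a b)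
    (h7 : ∀ j : Fin k, ∃ a b, G.Adj a b ∧ lab a b = j) (g : ℕ)
    (hcount : 2 + Nat.card G.edgeSet ≤ Nat.card W + k + 2 * g) : EmbedsInGenus G g := by
  have hfin : Finite G.Dart := Finite.of_injective _ Dart.toProd_injective
  let next : Equiv.Perm G.Dart :=
    { toFun := fun d => ⟨(d.fst, succ d.fst d.snd), h1 _ _ d.adj⟩
      invFun := fun d => ⟨(d.fst, pred d.fst d.snd), h2 _ _ d.adj⟩
      left_inv := fun d => by
        apply Dart.ext
        exact Prod.ext rfl (h3 _ _ d.adj)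
      right_inv := fun d => by
        apply Dart.ext
        exact Prod.ext rfl (h4 _ _ d.adj) }
  let R : Rotation G :=
    { next := next
      fst_next := fun d => rfl
      cyclic := by
        rintro ⟨⟨a, b⟩, hab⟩ ⟨⟨a', c⟩, hac⟩ h
        simp only at h hab hac
        subst h
        rcases h5 a b c hab hac with rfl | rfl | rfl
        · exact ⟨0, rfl⟩
        · exact ⟨1, rfl⟩
        · exact ⟨2, rfl⟩ }
  refine ⟨R, ?_⟩
  have hone : Nat.card G.ConnectedComponent = 1 := by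
    have := hG.preconnected.subsingleton_connectedComponent
    have : Nonempty G.ConnectedComponent := ⟨G.connectedComponentMk hG.nonempty.some⟩
    exact Nat.card_eq_one_iff_unique.mpr ⟨inferInstance, inferInstance⟩
  have hk : k ≤ R.faces := by
    let L : G.Dart → Fin k := fun d => lab d.fst d.snd
    have hL : ∀ d, L (R.face d) = L d := fun d => h6 _ _ d.adj
    let q : Quotient (Equiv.Perm.SameCycle.setoid R.face) → Fin k :=
      Quotient.lift L fun x y hxy => sameCycle_inv R.face L hL x y hxy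
    have hq : Function.Surjective q := by
      intro j
      obtain ⟨a, b, hab, rfl⟩ := h7 j
      exact ⟨Quotient.mk _ ⟨(a, b), hab⟩, rfl⟩
    have := Nat.card_le_card_of_surjective q hq
    unfold Rotation.faces
    simp only [Nat.card_eq_fintype_card, Fintype.card_fin] at this
    omega
  rw [hone]
  omega

/-! ### The hypergraph: the dual of the cube with one subdivided edge -/

/-- The nine hyperedges: the nodes of the subdivided cube, as sets of edges. -/
def E₀ : Fin 9 → Finset (Fin 13) :=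
  ![{0, 4, 9}, {1, 2, 10}, {2, 3, 11}, {3, 4, 12}, {5, 8, 9}, {5, 6, 10}, {6, 7, 11}, {7, 8, 12},
    {0, 1}]

/-- The line graph of the cube with one subdivided edge. -/
def G₀ : SimpleGraph (Fin 13) where
  Adj u v := u ≠ v ∧ ∃ i, u ∈ E₀ i ∧ v ∈ E₀ i
  symm := ⟨fun _ _ h => ⟨h.1.symm, h.2.imp fun _ h => ⟨h.2, h.1⟩⟩⟩
  loopless := ⟨fun _ h => h.1 rfl⟩

instance : DecidableRel G₀.Adj := fun u v => by unfold G₀; infer_instance

def succV : Fin 13 → Fin 9 → Fin 9 :=
  ![![8, 0, 0, 0, 0, 0, 0, 0, 0], ![0, 8, 0, 0, 0, 0, 0, 0, 1], ![0, 2, 1, 0, 0, 0, 0, 0, 0],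
    ![0, 0, 3, 2, 0, 0, 0, 0, 0], ![3, 0, 0, 0, 0, 0, 0, 0, 0], ![0, 0, 0, 0, 5, 4, 0, 0, 0],
    ![0, 0, 0, 0, 0, 6, 5, 0, 0], ![0, 0, 0, 0, 0, 0, 7, 6, 0], ![0, 0, 0, 0, 7, 0, 0, 4, 0],
    ![4, 0, 0, 0, 0, 0, 0, 0, 0], ![0, 5, 0, 0, 0, 1, 0, 0, 0], ![0, 0, 6, 0, 0, 0, 2, 0, 0],
    ![0, 0, 0, 7, 0, 0, 0, 3, 0]]

def succI : Fin 9 → Fin 13 → Fin 13 :=
  ![![9, 0, 0, 0, 0, 0, 0, 0, 0, 4, 0, 0, 0], ![0, 2, 10, 0, 0, 0, 0, 0, 0, 0, 1, 0, 0],
    ![0, 0, 3, 11, 0, 0, 0, 0, 0, 0, 0, 2, 0], ![0, 0, 0, 4, 12, 0, 0, 0, 0, 0, 0, 0, 3],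
    ![0, 0, 0, 0, 0, 8, 0, 0, 9, 5, 0, 0, 0], ![0, 0, 0, 0, 0, 10, 5, 0, 0, 0, 6, 0, 0],
    ![0, 0, 0, 0, 0, 0, 11, 6, 0, 0, 0, 7, 0], ![0, 0, 0, 0, 0, 0, 0, 12, 7, 0, 0, 0, 8],
    ![1, 0, 0, 0, 0, 0, 0, 0, 0, 0, 0, 0, 0]]

def predI : Fin 9 → Fin 13 → Fin 13 :=
  ![![4, 0, 0, 0, 9, 0, 0, 0, 0, 0, 0, 0, 0], ![0, 10, 1, 0, 0, 0, 0, 0, 0, 0, 2, 0, 0],
    ![0, 0, 11, 2, 0, 0, 0, 0, 0, 0, 0, 3, 0], ![0, 0, 0, 12, 3, 0, 0, 0, 0, 0, 0, 0, 4],
    ![0, 0, 0, 0, 0, 9, 0, 0, 5, 8, 0, 0, 0], ![0, 0, 0, 0, 0, 6, 10, 0, 0, 0, 5, 0, 0],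
    ![0, 0, 0, 0, 0, 0, 7, 11, 0, 0, 0, 6, 0], ![0, 0, 0, 0, 0, 0, 0, 8, 12, 0, 0, 0, 7],
    ![1, 0, 0, 0, 0, 0, 0, 0, 0, 0, 0, 0, 0]]

def labV : Fin 13 → Fin 9 → Fin 6 :=
  ![![0, 0, 0, 0, 0, 0, 0, 0, 1], ![0, 1, 0, 0, 0, 0, 0, 0, 0], ![0, 3, 1, 0, 0, 0, 0, 0, 0],
    ![0, 0, 4, 1, 0, 0, 0, 0, 0], ![1, 0, 0, 2, 0, 0, 0, 0, 0], ![0, 0, 0, 0, 5, 0, 0, 0, 0],
    ![0, 0, 0, 0, 0, 5, 3, 0, 0], ![0, 0, 0, 0, 0, 0, 5, 4, 0], ![0, 0, 0, 0, 2, 0, 0, 5, 0],
    ![2, 0, 0, 0, 0, 0, 0, 0, 0], ![0, 0, 0, 0, 0, 3, 0, 0, 0], ![0, 0, 3, 0, 0, 0, 4, 0, 0],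
    ![0, 0, 0, 4, 0, 0, 0, 2, 0]]

def labI : Fin 9 → Fin 13 → Fin 6 :=
  ![![1, 0, 0, 0, 2, 0, 0, 0, 0, 0, 0, 0, 0], ![0, 0, 1, 0, 0, 0, 0, 0, 0, 0, 3, 0, 0],
    ![0, 0, 3, 1, 0, 0, 0, 0, 0, 0, 0, 4, 0], ![0, 0, 0, 4, 1, 0, 0, 0, 0, 0, 0, 0, 2],
    ![0, 0, 0, 0, 0, 0, 0, 0, 5, 2, 0, 0, 0], ![0, 0, 0, 0, 0, 5, 3, 0, 0, 0, 0, 0, 0],
    ![0, 0, 0, 0, 0, 0, 5, 4, 0, 0, 0, 3, 0], ![0, 0, 0, 0, 0, 0, 0, 5, 2, 0, 0, 0, 4],
    ![0, 1, 0, 0, 0, 0, 0, 0, 0, 0, 0, 0, 0]]

def sc : Fin 13 ⊕ Fin 9 → Fin 13 ⊕ Fin 9 → Fin 13 ⊕ Fin 9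
  | Sum.inl v, Sum.inr i => Sum.inr (succV v i)
  | Sum.inr i, Sum.inl v => Sum.inl (succI i v)
  | x, _ => x

def pr : Fin 13 ⊕ Fin 9 → Fin 13 ⊕ Fin 9 → Fin 13 ⊕ Fin 9
  | Sum.inl v, Sum.inr i => Sum.inr (succV v i)
  | Sum.inr i, Sum.inl v => Sum.inl (predI i v)
  | x, _ => x

def lb : Fin 13 ⊕ Fin 9 → Fin 13 ⊕ Fin 9 → Fin 6
  | Sum.inl v, Sum.inr i => labV v i
  | Sum.inr i, Sum.inl v => labI i v
  | _, _ => 0

theorem adj_iff (a b : Fin 13 ⊕ Fin 9) : (incidence E₀).Adj a b ↔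
    (match a, b with
      | Sum.inl v, Sum.inr i => v ∈ E₀ i
      | Sum.inr i, Sum.inl v => v ∈ E₀ i
      | _, _ => False) := by
  rcases a with v | i <;> rcases b with w | j <;> simp [incidence]

theorem adj_inc {V ι : Type} {E : ι → Finset V} {v : V} {i : ι} (h : v ∈ E i) :
    (incidence E).Adj (Sum.inl v) (Sum.inr i) := Or.inl ⟨v, i, h, rfl, rfl⟩

theorem connected₀ : (incidence E₀).Connected := by
  have step : ∀ {i j : Fin 9} (v : Fin 13), v ∈ E₀ i → v ∈ E₀ j →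
      (incidence E₀).Reachable (Sum.inr i) (Sum.inr j) := fun v hi hj =>
    (adj_inc hi).symm.reachable.trans (adj_inc hj).reachable
  have h8 : (incidence E₀).Reachable (Sum.inr 8) (Sum.inr 0) := step 0 (by decide) (by decide)
  have h1 : (incidence E₀).Reachable (Sum.inr 1) (Sum.inr 0) :=
    (step 1 (by decide) (by decide)).trans h8
  have h2 : (incidence E₀).Reachable (Sum.inr 2) (Sum.inr 0) :=
    (step 2 (by decide) (by decide)).trans h1
  have h3 : (incidence E₀).Reachable (Sum.inr 3) (Sum.inr 0) :=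
    (step 3 (by decide) (by decide)).trans h2
  have h4 : (incidence E₀).Reachable (Sum.inr 4) (Sum.inr 0) := step 9 (by decide) (by decide)
  have h5 : (incidence E₀).Reachable (Sum.inr 5) (Sum.inr 0) :=
    (step 5 (by decide) (by decide)).trans h4
  have h6 : (incidence E₀).Reachable (Sum.inr 6) (Sum.inr 0) :=
    (step 6 (by decide) (by decide)).trans h5
  have h7 : (incidence E₀).Reachable (Sum.inr 7) (Sum.inr 0) :=
    (step 7 (by decide) (by decide)).trans h6
  have hI : ∀ i : Fin 9, (incidence E₀).Reachable (Sum.inr i) (Sum.inr 0) := by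
    intro i
    fin_cases i
    · exact Reachable.refl _
    · exact h1
    · exact h2
    · exact h3
    · exact h4
    · exact h5
    · exact h6
    · exact h7
    · exact h8
  have hV : ∀ v : Fin 13, ∃ i, v ∈ E₀ i := by decide
  have hall : ∀ x, (incidence E₀).Reachable x (Sum.inr 0) := by
    rintro (v | i)
    · obtain ⟨i, hi⟩ := hV v
      exact (adj_inc hi).reachable.trans (hI i)
    · exact hI i
  exact { preconnected := fun x y => (hall x).trans (hall y).symm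
          nonempty := ⟨Sum.inr 0⟩ }

theorem card_incidence {V ι : Type} [Finite V] [Finite ι] (E : ι → Finset V) :
    Nat.card (incidence E).edgeSet ≤ Nat.card (Σ i : ι, {v : V // v ∈ E i}) := by
  classical
  let f : (Σ i : ι, {v : V // v ∈ E i}) → (incidence E).edgeSet := fun x =>
    ⟨s(Sum.inl x.2.1, Sum.inr x.1), by
      rw [mem_edgeSet]
      exact Or.inl ⟨x.2.1, x.1, x.2.2, rfl, rfl⟩⟩
  apply Nat.card_le_card_of_surjective f
  rintro ⟨e, he⟩
  induction e using Sym2.ind with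
  | _ a b =>
    rw [mem_edgeSet] at he
    rcases he with ⟨v, i, h, rfl, rfl⟩ | ⟨v, i, h, rfl, rfl⟩
    · exact ⟨⟨i, v, h⟩, rfl⟩
    · exact ⟨⟨i, v, h⟩, Subtype.ext Sym2.eq_swap⟩

theorem card_E₀ : Nat.card (Σ i : Fin 9, {v : Fin 13 // v ∈ E₀ i}) = 26 := by
  rw [Nat.card_eq_fintype_card]
  decide +kernel

theorem adj_cases {P : Fin 13 ⊕ Fin 9 → Fin 13 ⊕ Fin 9 → Prop}
    (h1 : ∀ v i, v ∈ E₀ i → P (Sum.inl v) (Sum.inr i))
    (h2 : ∀ v i, v ∈ E₀ i → P (Sum.inr i) (Sum.inl v)) :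
    ∀ a b, (incidence E₀).Adj a b → P a b := by
  rintro a b (⟨v, i, h, rfl, rfl⟩ | ⟨v, i, h, rfl, rfl⟩)
  · exact h1 v i h
  · exact h2 v i h

theorem t1 : ∀ v i, v ∈ E₀ i → v ∈ E₀ (succV v i) := by decide
theorem t2 : ∀ v i, v ∈ E₀ i → succI i v ∈ E₀ i := by decide
theorem t3 : ∀ v i, v ∈ E₀ i → predI i v ∈ E₀ i := by decide
theorem t4 : ∀ v i, v ∈ E₀ i → succV v (succV v i) = i := by decide
theorem t5 : ∀ v i, v ∈ E₀ i → predI i (succI i v) = v := by decide
theorem t6 : ∀ v i, v ∈ E₀ i → succI i (predI i v) = v := by decide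
theorem t7 : ∀ v i j, v ∈ E₀ i → v ∈ E₀ j → j = i ∨ j = succV v i := by decide
theorem t8 : ∀ i v w, v ∈ E₀ i → w ∈ E₀ i →
    w = v ∨ w = succI i v ∨ w = succI i (succI i v) := by decide
theorem t9 : ∀ v i, v ∈ E₀ i → labI i (succI i v) = labV v i := by decide
theorem t10 : ∀ v i, v ∈ E₀ i → labV v (succV v i) = labI i v := by decide
theorem t11 : ∀ j : Fin 6, ∃ v i, v ∈ E₀ i ∧ labV v i = j := by decide

theorem embeds₀ : EmbedsInGenus (incidence E₀) 0 := by
  refine embeds_of_tables _ connected₀ sc pr 6 lb ?_ ?_ ?_ ?_ ?_ ?_ ?_ 0 ?_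
  · exact adj_cases (fun v i h => adj_inc (t1 v i h)) (fun v i h => (adj_inc (t2 v i h)).symm)
  · exact adj_cases (fun v i h => adj_inc (t1 v i h)) (fun v i h => (adj_inc (t3 v i h)).symm)
  · exact adj_cases (fun v i h => congrArg Sum.inr (t4 v i h))
      (fun v i h => congrArg Sum.inl (t5 v i h))
  · exact adj_cases (fun v i h => congrArg Sum.inr (t4 v i h))
      (fun v i h => congrArg Sum.inl (t6 v i h))
  · rintro a b c (⟨v, i, h, rfl, rfl⟩ | ⟨v, i, h, rfl, rfl⟩)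
      (⟨w, j, h', ha, rfl⟩ | ⟨w, j, h', ha, rfl⟩)
    · obtain rfl : v = w := Sum.inl_injective ha
      rcases t7 v i j h h' with rfl | rfl
      · exact Or.inl rfl
      · exact Or.inr (Or.inl rfl)
    · exact absurd ha (by simp)
    · exact absurd ha (by simp)
    · obtain rfl : i = j := Sum.inr_injective ha
      rcases t8 i v w h h' with rfl | rfl | rfl
      · exact Or.inl rfl
      · exact Or.inr (Or.inl rfl)
      · exact Or.inr (Or.inr rfl)
  · exact adj_cases (fun v i h => t9 v i h) (fun v i h => t10 v i h)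
  · intro j
    obtain ⟨v, i, h, hj⟩ := t11 j
    exact ⟨Sum.inl v, Sum.inr i, adj_inc h, hj⟩
  · have h1 := card_incidence E₀
    rw [card_E₀] at h1
    have h2 : Nat.card (Fin 13 ⊕ Fin 9) = 22 := by simp
    omega

theorem unique_hyperedge : ∀ u v : Fin 13, u ≠ v → ∀ i j, u ∈ E₀ i → v ∈ E₀ i → u ∈ E₀ j →
    v ∈ E₀ j → i = j := by decide +kernel

theorem adjacencyIs : AdjacencyIs E₀ G₀ := by
  intro u v huv
  unfold mult
  constructor
  · rintro ⟨-, i, h1, h2⟩
    rw [Nat.card_eq_one_iff_unique]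
    exact ⟨⟨fun x y => Subtype.ext
      (unique_hyperedge u v huv _ _ x.2.1 x.2.2 y.2.1 y.2.2)⟩, ⟨⟨i, h1, h2⟩⟩⟩
  · intro h
    rw [Nat.card_eq_zero]
    left
    exact ⟨fun x => h ⟨huv, x.1, x.2.1, x.2.2⟩⟩

theorem hasReducedGenus : HasReducedGenus G₀ 0 :=
  ⟨⟨Fin 9, inferInstance, E₀, adjacencyIs, embeds₀, fun _ _ => Nat.zero_le _⟩,
    fun _ _ => Nat.zero_le _⟩

/-! ### The graph is clique partitioned -/

theorem closed : ∀ u v : Fin 13, u ≠ v → ∀ i, u ∈ E₀ i → v ∈ E₀ i → ∀ w, G₀.Adj u w →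
    G₀.Adj v w → w ∈ E₀ i := by decide +kernel

theorem clique_subset {s : Set (Fin 13)} (hs : G₀.IsClique s) {u v : Fin 13} (hu : u ∈ s)
    (hv : v ∈ s) (huv : u ≠ v) {i : Fin 9} (hui : u ∈ E₀ i) (hvi : v ∈ E₀ i) :
    s ⊆ (E₀ i : Set (Fin 13)) := by
  intro w hw
  by_cases h1 : u = w
  · subst h1; exact hui
  by_cases h2 : v = w
  · subst h2; exact hvi
  exact closed u v huv i hui hvi w (hs hu hw h1) (hs hv hw h2)

theorem hyperedge_clique (i : Fin 9) : G₀.IsClique (E₀ i : Set (Fin 13)) :=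
  fun _ hu _ hv huv => ⟨huv, i, hu, hv⟩

theorem cliquePartitioned : CliquePartitioned G₀ := by
  intro s t hs ht hst u hu v hv
  by_contra huv
  obtain ⟨-, i, hui, hvi⟩ := hs.prop hu.1 hv.1 huv
  have h1 := clique_subset hs.prop hu.1 hv.1 huv hui hvi
  have h2 := clique_subset ht.prop hu.2 hv.2 huv hui hvi
  have h3 : s = (E₀ i : Set (Fin 13)) := hs.eq_of_subset (hyperedge_clique i) h1
  have h4 : t = (E₀ i : Set (Fin 13)) := ht.eq_of_subset (hyperedge_clique i) h2
  exact hst (h3.trans h4.symm)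

/-! ### Clique number and chromatic number -/

theorem card_hyperedge : ∀ i : Fin 9, (E₀ i).card ≤ 3 := by decide

theorem cliqueNum_le : G₀.cliqueNum ≤ 3 := by
  classical
  obtain ⟨s, hs⟩ := G₀.exists_isNClique_cliqueNum
  rw [← hs.card_eq]
  by_contra hlt
  push Not at hlt
  obtain ⟨u, hu, v, hv, huv⟩ := Finset.one_lt_card.mp (by omega : 1 < s.card)
  obtain ⟨-, i, hui, hvi⟩ := hs.isClique hu hv huv
  have h1 := clique_subset hs.isClique hu hv huv hui hvi
  have h2 : s ⊆ E₀ i := by exact_mod_cast h1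
  have := Finset.card_le_card h2
  have := card_hyperedge i
  omega

/-- Every vertex lies in exactly two of the nine hyperedges, so a set of vertices meeting every
hyperedge at most once has at most four elements. -/
theorem indep_card (s : Finset (Fin 13)) (hs : ∀ u ∈ s, ∀ v ∈ s, ¬ G₀.Adj u v) :
    s.card ≤ 4 := by
  have h1 : ∀ i, (s ∩ E₀ i).card ≤ 1 := by
    intro i
    rw [Finset.card_le_one]
    intro a ha b hb
    by_contra hab
    rw [Finset.mem_inter] at ha hb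
    exact hs a ha.1 b hb.1 ⟨hab, i, ha.2, hb.2⟩
  have h2 : ∑ i : Fin 9, (s ∩ E₀ i).card = 2 * s.card := by
    have : ∀ v : Fin 13, (Finset.univ.filter fun i : Fin 9 => v ∈ E₀ i).card = 2 := by decide
    calc ∑ i : Fin 9, (s ∩ E₀ i).card
        = ∑ i : Fin 9, ∑ v ∈ s, (if v ∈ E₀ i then 1 else 0) := by
          refine Finset.sum_congr rfl fun i _ => ?_
          rw [Finset.sum_boole, ← Finset.filter_mem_eq_inter]
          rfl
      _ = ∑ v ∈ s, ∑ i : Fin 9, (if v ∈ E₀ i then 1 else 0) := Finset.sum_comm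
      _ = ∑ v ∈ s, 2 := by
          refine Finset.sum_congr rfl fun v _ => ?_
          rw [Finset.sum_boole, this v]
          rfl
      _ = 2 * s.card := by rw [Finset.sum_const, smul_eq_mul, mul_comm]
  have h3 : ∑ i : Fin 9, (s ∩ E₀ i).card ≤ ∑ _i : Fin 9, 1 := Finset.sum_le_sum fun i _ => h1 i
  simp only [Finset.sum_const, Finset.card_univ, Fintype.card_fin, smul_eq_mul, mul_one] at h3
  omega

theorem not_colorable : ¬ G₀.Colorable 3 := by
  classical
  rintro ⟨c⟩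
  have h1 : ∀ k : Fin 3, (Finset.univ.filter fun v => c v = k).card ≤ 4 := by
    intro k
    apply indep_card
    intro u hu v hv huv
    simp only [Finset.mem_filter, Finset.mem_univ, true_and] at hu hv
    exact c.valid huv (hu.trans hv.symm)
  have h2 : (Finset.univ : Finset (Fin 13)).card =
      ∑ k : Fin 3, (Finset.univ.filter fun v => c v = k).card :=
    Finset.card_eq_sum_card_fiberwise fun v _ => Finset.mem_univ (c v)
  have h3 : ∑ k : Fin 3, (Finset.univ.filter fun v => c v = k).card ≤ ∑ _k : Fin 3, 4 :=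
    Finset.sum_le_sum fun k _ => h1 k
  rw [← h2] at h3
  simp at h3

theorem chromatic_ge : 4 ≤ ENat.toNat G₀.chromaticNumber := by
  by_contra h
  push Not at h
  have h1 := G₀.colorable_chromaticNumber_of_fintype
  exact not_colorable (h1.mono (by omega))

/-- It is not true that every clique partitioned simple graph `G` of reduced genus `g` satisfies
`χ(G) ≤ max (H(g) - 1) (ω(G))`. -/
theorem result : ¬ ∀ (g : ℕ) (V : Type) (_ : Finite V) (G : SimpleGraph V), CliquePartitioned G →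
    HasReducedGenus G g →
    (ENat.toNat G.chromaticNumber : ℝ) ≤ max (heawood g - 1) (G.cliqueNum : ℝ) := by
  intro h
  have h1 := h 0 _ inferInstance G₀ cliquePartitioned hasReducedGenus
  have h2 : (4 : ℝ) ≤ (ENat.toNat G₀.chromaticNumber : ℝ) := by
    exact_mod_cast chromatic_ge
  have h3 : (G₀.cliqueNum : ℝ) ≤ 3 := by exact_mod_cast cliqueNum_le
  have h4 : heawood 0 = 4 := by
    unfold heawood
    norm_num
  rcases le_max_iff.mp h1 with h5 | h5
  · rw [h4] at h5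
    linarith
  · linarith

end Pool.Agent.Results.MP_1fec7a_co.DisproofQ2
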